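import Pool.Agent.H41.SS.Targets

/-!
# The closure (row CLS of the board `ss_modules`)
-/

set_option autoImplicit false

namespace Pool.Agent.H68.SSM

open Finset Pool.Agent.H97.RK Pool.Agent.H97.RL Pool.Agent.H41.SS

theorem pf_CLS : T_CLS := by
  classical
  intro n k m F D d w b hw x y A W J hGd hyx hmem hfls hsat hJD hWc hA hext
  set B : Finset (Fin n) := A ∪ W with hB
  let bad : Finset (Fin m) → Prop := fun S =>
    S.card ≤ 2 * D ∧ (∀ c ∈ S, Al F y B c) ∧ (VS F S \ B).card < 2 * S.card
  obtain ⟨Sx, hSx, hmax⟩ := Finset.exists_max_image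
    (univ.filter (fun S : Finset (Fin m) => bad S ∨ S = ∅)) Finset.card
    ⟨∅, by simp⟩
  have hSx' : bad Sx ∨ Sx = ∅ := by simpa using hSx
  have hmax' : ∀ S : Finset (Fin m), bad S → S.card ≤ Sx.card := fun S hS =>
    hmax S (by simp [hS])
  have a1 : Sx.card ≤ 2 * D := by
    rcases hSx' with h | h
    · exact h.1
    · rw [h]; simp
  have a2 : ∀ c ∈ Sx, Al F y B c := by
    rcases hSx' with h | h
    · exact h.2.1
    · rw [h]; simp
  have a3 : (VS F Sx \ B).card ≤ 2 * Sx.card := by
    rcases hSx' with h | h
    · exact h.2.2.le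
    · rw [h]; simp [VS]
  set G : Finset (Fin n) := VS F Sx \ B with hG
  set W' : Finset (Fin n) := W ∪ G with hW'
  have hGB : ∀ u, u ∈ G → u ∉ B := fun u hu => (Finset.mem_sdiff.mp hu).2
  have hVS : ∀ (S : Finset (Fin m)) (c : Fin m), c ∈ S → ∀ i, (F c i).1 ∈ VS F S := by
    intro S c hc i
    unfold VS vF
    rw [Finset.mem_biUnion]
    exact ⟨c, hc, Finset.mem_image.mpr ⟨i, Finset.mem_univ _, rfl⟩⟩
  have hBW : ∀ u, u ∈ B → u ∈ A ∪ W' := by
    intro u hu
    rw [hB, Finset.mem_union] at hu
    rw [Finset.mem_union, hW', Finset.mem_union]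
    tauto
  have hGW : ∀ u, u ∈ G → u ∈ A ∪ W' := by
    intro u hu
    rw [Finset.mem_union, hW', Finset.mem_union]
    tauto
  have hmem' : ∀ c ∈ J ∪ Sx, ∀ i, (F c i).1 ∈ A ∪ W' := by
    intro c hc i
    rcases Finset.mem_union.mp hc with h | h
    · exact hBW _ (hmem c h i)
    · by_cases hb : (F c i).1 ∈ B
      · exact hBW _ hb
      · exact hGW _ (Finset.mem_sdiff.mpr ⟨hVS Sx c h i, hb⟩)
  have hW'c : W'.card ≤ b + 2 * J.card + 2 * Sx.card := by
    have h1 : W'.card ≤ W.card + G.card := Finset.card_union_le W G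
    have h2 : G.card ≤ 2 * Sx.card := a3
    omega
  -- the set of the reserved clauses is small
  have hdisj : Disjoint J Sx := by
    rw [Finset.disjoint_left]
    intro c hc hc'
    obtain ⟨i, hi, hi'⟩ := hsat c hc
    exact a2 c hc' i hi hi'
  have hcardJ : (J ∪ Sx).card = J.card + Sx.card := Finset.card_union_of_disjoint hdisj
  have hsmall : (J ∪ Sx).card < D := by
    have hT : Disjoint (A \ W') W' := Finset.sdiff_disjoint
    have hTc : (A \ W').card ≤ A.card := Finset.card_le_card Finset.sdiff_subset
    have h := hGd (A \ W') W' hT (by omega) (by omega)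
    refine lt_of_le_of_lt (Finset.card_le_card ?_) h
    intro c hc
    rw [Finset.mem_filter]
    refine ⟨Finset.mem_univ _, ?_, ?_⟩
    · intro i
      have := hmem' c hc i
      rw [Finset.sdiff_union_self_eq_union]
      exact this
    · intro i hi
      rw [Finset.mem_sdiff] at hi
      have hiW : (F c i).1 ∉ W := fun h' => hi.2 (by rw [hW', Finset.mem_union]; exact Or.inl h')
      rw [← hyx _ hiW]
      rcases Finset.mem_union.mp hc with h' | h'
      · exact hfls c h' i (Finset.mem_sdiff.mpr ⟨hi.1, hiW⟩)
      · exact a2 c h' i (by rw [hB, Finset.mem_union]; exact Or.inl hi.1)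
  obtain ⟨z, hzy, hzS⟩ := hext Sx (by omega) a2
  let y' : Fin n → Bool := fun u => if u ∈ G then z u else y u
  have y'B : ∀ u ∈ B, y' u = y u := by
    intro u hu
    have : u ∉ G := fun h => hGB u h hu
    simp only [y', if_neg this]
  have y'G : ∀ u ∈ G, y' u = z u := by
    intro u hu
    simp only [y', if_pos hu]
  have y'n : ∀ u, u ∉ G → y' u = y u := by
    intro u hu
    simp only [y', if_neg hu]
  have hsat' : ∀ c ∈ J ∪ Sx, Sa F y' (A ∪ W') c := by
    intro c hc
    rcases Finset.mem_union.mp hc with h | h
    · obtain ⟨i, hi, hi'⟩ := hsat c h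
      exact ⟨i, hBW _ hi, by rw [y'B _ hi]; exact hi'⟩
    · obtain ⟨i, _, hi'⟩ := hzS c h
      have hb : (F c i).1 ∉ B := by
        intro hb
        apply a2 c h i hb
        rw [← hzy _ hb]
        exact hi'
      have hg : (F c i).1 ∈ G := Finset.mem_sdiff.mpr ⟨hVS Sx c h i, hb⟩
      exact ⟨i, hGW _ hg, by rw [y'G _ hg]; exact hi'⟩
  refine ⟨y', W', J ∪ Sx, Finset.subset_union_left, y'B, ?_, hmem', ?_, hsat', ?_, hsmall, ?_⟩
  · intro u hu
    rw [hW', Finset.mem_union, not_or] at hu
    rw [y'n u hu.2, hyx u hu.1]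
  · intro c hc i hi
    rw [Finset.mem_sdiff, hW', Finset.mem_union, not_or] at hi
    rw [y'n _ hi.2.2]
    rcases Finset.mem_union.mp hc with h' | h'
    · exact hfls c h' i (Finset.mem_sdiff.mpr ⟨hi.1, hi.2.1⟩)
    · exact a2 c h' i (by rw [hB, Finset.mem_union]; exact Or.inl hi.1)
  · intro S hSD hSal
    by_contra hcon
    rw [not_le] at hcon
    have hd : Disjoint S Sx := by
      rw [Finset.disjoint_left]
      intro c hc hc'
      obtain ⟨i, hi, hi'⟩ := hsat' c (Finset.mem_union.mpr (Or.inr hc'))
      exact hSal c hc i hi hi'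
    have hcu : (S ∪ Sx).card = S.card + Sx.card := Finset.card_union_of_disjoint hd
    have hbad : bad (S ∪ Sx) := by
      refine ⟨by omega, ?_, ?_⟩
      · intro c hc
        rcases Finset.mem_union.mp hc with h | h
        · intro i hi
          rw [← y'B _ hi]
          exact hSal c h i (hBW _ hi)
        · exact a2 c h
      · have hsub : VS F (S ∪ Sx) \ B ⊆ (VS F S \ (A ∪ W')) ∪ G := by
          intro u hu
          rw [Finset.mem_sdiff] at hu
          rw [Finset.mem_union]
          by_cases hg : u ∈ G
          · exact Or.inr hg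
          · left
            rw [Finset.mem_sdiff]
            have h1 : u ∈ VS F S := by
              unfold VS at hu
              rw [Finset.mem_biUnion] at hu
              obtain ⟨⟨c, hc, hcu'⟩, hub⟩ := hu
              rcases Finset.mem_union.mp hc with h | h
              · unfold VS
                rw [Finset.mem_biUnion]
                exact ⟨c, h, hcu'⟩
              · exfalso
                apply hg
                rw [hG, Finset.mem_sdiff]
                refine ⟨?_, hub⟩
                unfold VS
                rw [Finset.mem_biUnion]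
                exact ⟨c, h, hcu'⟩
            refine ⟨h1, ?_⟩
            intro h2
            rw [Finset.mem_union, hW', Finset.mem_union] at h2
            rcases h2 with h2 | h2 | h2
            · exact hu.2 (by rw [hB, Finset.mem_union]; exact Or.inl h2)
            · exact hu.2 (by rw [hB, Finset.mem_union]; exact Or.inr h2)
            · exact hg h2
        have h3 := Finset.card_le_card hsub
        have h4 := Finset.card_union_le (VS F S \ (A ∪ W')) G
        omega
    have := hmax' _ hbad
    omega
  · rw [hcardJ]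
    omega

end Pool.Agent.H68.SSM
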